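import Pool.Agent.Lib.MP_144d21_co.X2.H79.R3
import Pool.Agent.Lib.MP_144d21_co.XU.H30.K5dep

/-!
# X2, modules R4, R5, R6: hinge motions and `K_5`
-/

set_option autoImplicit false
set_option linter.unusedSectionVars false

namespace Pool.Agent.Xu.X2.H79

open Finset Pool.Agent.Xu Matrix

variable {V : Type} [Fintype V] [DecidableEq V]

/-- the pairing with a velocity field -/
noncomputable def fnl (m : V → Fin 3 → ℝ) : (V → Fin 3 → ℝ) →ₗ[ℝ] ℝ where
  toFun z := ∑ u, z u ⬝ᵥ m u
  map_add' x y := by simp only [Pi.add_apply, add_dotProduct, sum_add_distrib]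
  map_smul' t x := by
    simp only [Pi.smul_apply, smul_dotProduct, RingHom.id_apply, smul_eq_mul, mul_sum]

theorem fnl_sg (m : V → Fin 3 → ℝ) (u : V) (y : Fin 3 → ℝ) : fnl m (sg u y) = y ⬝ᵥ m u := by
  show ∑ w, (Pi.single u y : V → Fin 3 → ℝ) w ⬝ᵥ m w = _
  rw [sum_eq_single u]
  · rw [Pi.single_eq_same]
  · intro w _ hw
    rw [Pi.single_eq_of_ne hw, zero_dotProduct]
  · intro h; exact absurd (mem_univ u) h

theorem fnl_row (m p : V → Fin 3 → ℝ) (u w : V) :
    fnl m (row p u w) = (p u - p w) ⬝ᵥ (m u - m w) := by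
  rw [row_sg, map_add, fnl_sg, fnl_sg, dotProduct_sub, ← neg_sub (p u) (p w), neg_dotProduct]
  ring

/-- a pair moved by an infinitesimal motion of `G[S]` is not implied -/
theorem not_mem_of_motion {p : V → Fin 3 → ℝ} {G : SimpleGraph V} {S : Finset V}
    (m : V → Fin 3 → ℝ)
    (h : ∀ u ∈ S, ∀ w ∈ S, G.Adj u w → (p u - p w) ⬝ᵥ (m u - m w) = 0) {x y : V}
    (hxy : (p x - p y) ⬝ᵥ (m x - m y) ≠ 0) : row p x y ∉ rs p G S := by
  intro hm
  apply hxy
  rw [← fnl_row]
  have : rs p G S ≤ LinearMap.ker (fnl m) := by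
    unfold rs
    rw [Submodule.span_le]
    rintro _ ⟨u, hu, w, hw, ha, rfl⟩
    rw [SetLike.mem_coe, LinearMap.mem_ker, fnl_row]
    exact h u hu w hw ha
  exact LinearMap.mem_ker.1 (this hm)

/-- infinitesimal rigid motions of one side -/
theorem r5_motion {p : V → Fin 3 → ℝ} {G : SimpleGraph V} {S1 S2 : Finset V}
    (hsep : Sep G S1 S2) (ω P0 τ : Fin 3 → ℝ)
    (hz : ∀ u ∈ S1 ∩ S2, crossProduct ω (p u - P0) + τ = 0) {x y : V} (hx : x ∈ S1)
    (hy1 : y ∉ S1) (hxy : (p x - p y) ⬝ᵥ (crossProduct ω (p x - P0) + τ) ≠ 0) :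
    row p x y ∉ rs p G (S1 ∪ S2) := by
  classical
  apply not_mem_of_motion (fun u => if u ∈ S1 then crossProduct ω (p u - P0) + τ else 0)
  · intro u hu w hw ha
    have hzero : ∀ t ∈ S2, (if t ∈ S1 then crossProduct ω (p t - P0) + τ else 0) = 0 := by
      intro t ht
      split_ifs with h
      · exact hz t (mem_inter.2 ⟨h, ht⟩)
      · rfl
    by_cases hu2 : u ∈ S2
    · by_cases hw2 : w ∈ S2
      · show (p u - p w) ⬝ᵥ ((if u ∈ S1 then crossProduct ω (p u - P0) + τ else 0) -
          (if w ∈ S1 then crossProduct ω (p w - P0) + τ else 0)) = 0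
        rw [hzero u hu2, hzero w hw2, sub_zero, dotProduct_zero]
      · have hw1 : w ∈ S1 := (mem_union.1 hw).resolve_right hw2
        by_cases hu1 : u ∈ S1
        · show (p u - p w) ⬝ᵥ ((if u ∈ S1 then crossProduct ω (p u - P0) + τ else 0) -
            (if w ∈ S1 then crossProduct ω (p w - P0) + τ else 0)) = 0
          rw [if_pos hu1, if_pos hw1]
          have : crossProduct ω (p u - P0) + τ - (crossProduct ω (p w - P0) + τ) =
              crossProduct ω (p u - p w) := by
            rw [add_sub_add_right_eq_sub, ← map_sub, sub_sub_sub_cancel_right]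
          rw [this, dot_cross_self]
        · exact absurd ha.symm (hsep w hw1 hw2 u hu2 hu1)
    · have hu1 : u ∈ S1 := (mem_union.1 hu).resolve_right hu2
      by_cases hw1 : w ∈ S1
      · show (p u - p w) ⬝ᵥ ((if u ∈ S1 then crossProduct ω (p u - P0) + τ else 0) -
            (if w ∈ S1 then crossProduct ω (p w - P0) + τ else 0)) = 0
        rw [if_pos hu1, if_pos hw1]
        have : crossProduct ω (p u - P0) + τ - (crossProduct ω (p w - P0) + τ) =
            crossProduct ω (p u - p w) := by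
          rw [add_sub_add_right_eq_sub, ← map_sub, sub_sub_sub_cancel_right]
        rw [this, dot_cross_self]
      · exact absurd ha (hsep u hu1 hu2 w ((mem_union.1 hw).resolve_left hw1) hw1)
  · show (p x - p y) ⬝ᵥ ((if x ∈ S1 then crossProduct ω (p x - P0) + τ else 0) -
      (if y ∈ S1 then crossProduct ω (p y - P0) + τ else 0)) ≠ 0
    rw [if_pos hx, if_neg hy1, sub_zero]
    exact hxy

/-- triple products do not vanish in general position -/
theorem triple_ne {a b c : Fin 3 → ℝ}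
    (h : ∀ x y z : ℝ, x • a + y • b + z • c = 0 → x = 0 ∧ y = 0 ∧ z = 0) :
    a ⬝ᵥ crossProduct b c ≠ 0 := by
  rw [triple_product_eq_det]
  intro h0
  obtain ⟨v, hv, hv0⟩ := Matrix.exists_vecMul_eq_zero_iff.2 h0
  apply hv
  have h1 := h (v 0) (v 1) (v 2) (by
    refine Eq.trans ?_ hv0
    ext j
    simp [Matrix.vecMul, dotProduct, Fin.sum_univ_three])
  funext i
  fin_cases i
  · exact h1.1
  · exact h1.2.1
  · exact h1.2.2

/-- R5: a pair separated by at most two vertices is not implied -/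
theorem r5 {p : V → Fin 3 → ℝ} (hp : GP p) {G : SimpleGraph V} {S1 S2 : Finset V}
    (hsep : Sep G S1 S2) (hcard : (S1 ∩ S2).card ≤ 2) {x y : V} (hx : x ∈ S1) (hx2 : x ∉ S2)
    (hy : y ∈ S2) (hy1 : y ∉ S1) : row p x y ∉ rs p G (S1 ∪ S2) := by
  have hne : x ≠ y := fun h => hx2 (h ▸ hy)
  rcases Nat.lt_or_ge (S1 ∩ S2).card 1 with h0 | h1
  · have h0' : S1 ∩ S2 = ∅ := card_eq_zero.1 (by omega)
    apply r5_motion hsep 0 0 (p x - p y) _ hx hy1
    · rw [LinearMap.map_zero₂, zero_add]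
      intro h
      exact hp.two x y hne (sub_eq_zero.1 (dotProduct_self_eq_zero.1 h))
    · intro u hu; rw [h0'] at hu; exact absurd hu (notMem_empty u)
  rcases Nat.lt_or_ge (S1 ∩ S2).card 2 with h2 | h2
  · obtain ⟨a, ha⟩ := card_eq_one.1 (show (S1 ∩ S2).card = 1 by omega)
    have haS : a ∈ S1 ∩ S2 := by rw [ha]; exact mem_singleton_self a
    have hxa : x ≠ a := fun h => hx2 (h ▸ (mem_inter.1 haS).2)
    have hya : y ≠ a := fun h => hy1 (h ▸ (mem_inter.1 haS).1)
    apply r5_motion hsep (crossProduct (p x - p a) (p x - p y)) (p a) 0 _ hx hy1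
    · rw [add_zero]
      -- `u · (ω × v) = ω · (v × u)`
      rw [triple_product_permutation]
      intro h
      have h3 := dotProduct_self_eq_zero.1 h
      revert h3
      rw [imp_false, ← ne_eq, crossProduct_ne_zero_iff_linearIndependent]
      rw [LinearIndependent.pair_iff]
      intro s t hst
      have := hp.three a x y hxa.symm hya.symm hne (s + t) (-t) (by
        rw [← hst]; module)
      exact ⟨by linarith [this.1, neg_eq_zero.1 this.2], neg_eq_zero.1 this.2⟩
    · intro u hu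
      rw [ha, mem_singleton] at hu
      rw [hu, sub_self, map_zero, add_zero]
  · obtain ⟨a, b, hab, he⟩ := card_eq_two.1 (show (S1 ∩ S2).card = 2 by omega)
    have haS : a ∈ S1 ∩ S2 := by rw [he]; simp
    have hbS : b ∈ S1 ∩ S2 := by rw [he]; simp
    have hxa : x ≠ a := fun h => hx2 (h ▸ (mem_inter.1 haS).2)
    have hya : y ≠ a := fun h => hy1 (h ▸ (mem_inter.1 haS).1)
    have hxb : x ≠ b := fun h => hx2 (h ▸ (mem_inter.1 hbS).2)
    have hyb : y ≠ b := fun h => hy1 (h ▸ (mem_inter.1 hbS).1)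
    apply r5_motion hsep (p b - p a) (p a) 0 _ hx hy1
    · rw [add_zero]
      apply triple_ne
      intro s t r h
      have := hp.four a b x y hab hxa.symm hya.symm hxb.symm hyb.symm hne t (s + r) (-s) (by
        rw [← h]; module)
      obtain ⟨h1, h2, h3⟩ := this
      have h3' : s = 0 := neg_eq_zero.1 h3
      exact ⟨h3', h1, by linarith⟩
    · intro u hu
      rw [he, mem_insert, mem_singleton] at hu
      rcases hu with rfl | rfl
      · rw [sub_self, map_zero, add_zero]
      · rw [cross_self, add_zero]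

/-- R6: `K_5` minus an edge implies the missing edge -/
theorem r6 {p : V → Fin 3 → ℝ} (hp : GP p) {U : Submodule ℝ (V → Fin 3 → ℝ)}
    {a b c d e : V} (hab : a ≠ b) (hac : a ≠ c) (had : a ≠ d) (hae : a ≠ e) (hbc : b ≠ c)
    (hbd : b ≠ d) (hbe : b ≠ e) (hcd : c ≠ d) (hce : c ≠ e) (hde : d ≠ e)
    (h1 : row p a c ∈ U) (h2 : row p a d ∈ U) (h3 : row p a e ∈ U) (h4 : row p b c ∈ U)
    (h5 : row p b d ∈ U) (h6 : row p b e ∈ U) (h7 : row p c d ∈ U) (h8 : row p c e ∈ U)
    (h9 : row p d e ∈ U) : row p a b ∈ U := by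
  have := H30.k5dep V p hp a b c d e hab hac had hae hbc hbd hbe hcd hce hde
  refine (Submodule.span_le.2 ?_) this
  rintro z (rfl | rfl | rfl | rfl | rfl | rfl | rfl | rfl | rfl) <;> assumption

/-- R4: joining a vertex to a cluster adds at most 3 to the rank -/
theorem r4 {p : V → Fin 3 → ℝ} (hp : GP p) (U : Submodule ℝ (V → Fin 3 → ℝ)) (K : Finset V)
    (hK : ∀ a ∈ K, ∀ b ∈ K, row p a b ∈ U) (v : V) :
    Module.finrank ℝ (U ⊔ Submodule.span ℝ {z | ∃ w ∈ K, z = row p v w} :
      Submodule ℝ (V → Fin 3 → ℝ)) ≤ Module.finrank ℝ U + 3 := by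
  classical
  obtain ⟨K', hK', hc, hspan⟩ : ∃ K' ⊆ K, K'.card ≤ 3 ∧ ∀ w ∈ K, row p v w ∈
      U ⊔ Submodule.span ℝ {z | ∃ w ∈ K', z = row p v w} := by
    by_cases hcard : (K.erase v).card ≤ 3
    · refine ⟨K.erase v, erase_subset v K, hcard, fun w hw => ?_⟩
      by_cases hwv : w = v
      · rw [hwv, row_self]; exact Submodule.zero_mem _
      · exact Submodule.mem_sup_right (Submodule.subset_span ⟨w, mem_erase.2 ⟨hwv, hw⟩, rfl⟩)
    · obtain ⟨K', hK', hc⟩ := exists_subset_card_eq (show 3 ≤ (K.erase v).card by omega)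
      obtain ⟨a, b, c, hab, hac, hbc, he⟩ := card_eq_three.1 hc
      refine ⟨K', hK'.trans (erase_subset v K), hc.le, fun w hw => ?_⟩
      have hin : ∀ t ∈ K', t ∈ K ∧ t ≠ v := fun t ht =>
        ⟨(mem_erase.1 (hK' ht)).2, (mem_erase.1 (hK' ht)).1⟩
      by_cases hw' : w ∈ K'
      · exact Submodule.mem_sup_right (Submodule.subset_span ⟨w, hw', rfl⟩)
      by_cases hwv : w = v
      · rw [hwv, row_self]; exact Submodule.zero_mem _
      have ha : a ∈ K' := by rw [he]; simp
      have hb : b ∈ K' := by rw [he]; simp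
      have hc' : c ∈ K' := by rw [he]; simp
      have hwa : w ≠ a := fun h => hw' (h ▸ ha)
      have hwb : w ≠ b := fun h => hw' (h ▸ hb)
      have hwc : w ≠ c := fun h => hw' (h ▸ hc')
      have hs : ∀ t ∈ K', row p v t ∈ U ⊔ Submodule.span ℝ {z | ∃ w ∈ K', z = row p v w} :=
        fun t ht => Submodule.mem_sup_right (Submodule.subset_span ⟨t, ht, rfl⟩)
      have hU : ∀ s ∈ K, ∀ t ∈ K, row p s t ∈
          U ⊔ Submodule.span ℝ {z | ∃ w ∈ K', z = row p v w} :=
        fun s hs t ht => Submodule.mem_sup_left (hK s hs t ht)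
      exact r6 hp (fun h => hwv h.symm) (hin a ha).2.symm (hin b hb).2.symm (hin c hc').2.symm
        hwa hwb hwc hab hac hbc (hs a ha) (hs b hb) (hs c hc') (hU w hw a (hin a ha).1)
        (hU w hw b (hin b hb).1) (hU w hw c (hin c hc').1) (hU a (hin a ha).1 b (hin b hb).1)
        (hU a (hin a ha).1 c (hin c hc').1) (hU b (hin b hb).1 c (hin c hc').1)
  have hle : U ⊔ Submodule.span ℝ {z | ∃ w ∈ K, z = row p v w} ≤
      U ⊔ Submodule.span ℝ {z | ∃ w ∈ K', z = row p v w} := by
    refine sup_le le_sup_left ?_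
    rw [Submodule.span_le]
    rintro z ⟨w, hw, rfl⟩
    exact hspan w hw
  have h1 : {z | ∃ w ∈ K', z = row p v w} = ((K'.image fun w => row p v w : Finset _) :
      Set (V → Fin 3 → ℝ)) := by
    ext z
    simp only [Set.mem_ofPred_eq, coe_image, Set.mem_image, mem_coe]
    constructor
    · rintro ⟨w, hw, rfl⟩; exact ⟨w, hw, rfl⟩
    · rintro ⟨w, hw, rfl⟩; exact ⟨w, hw, rfl⟩
  have h2 : Module.finrank ℝ (Submodule.span ℝ {z | ∃ w ∈ K', z = row p v w} :
      Submodule ℝ (V → Fin 3 → ℝ)) ≤ 3 := by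
    rw [h1]
    exact (finrank_span_finset_le_card _).trans (card_image_le.trans hc)
  calc Module.finrank ℝ (U ⊔ Submodule.span ℝ {z | ∃ w ∈ K, z = row p v w} :
      Submodule ℝ (V → Fin 3 → ℝ)) ≤ Module.finrank ℝ (U ⊔ Submodule.span ℝ
        {z | ∃ w ∈ K', z = row p v w} : Submodule ℝ (V → Fin 3 → ℝ)) :=
        Submodule.finrank_mono hle
    _ ≤ Module.finrank ℝ U + Module.finrank ℝ (Submodule.span ℝ
        {z | ∃ w ∈ K', z = row p v w} : Submodule ℝ (V → Fin 3 → ℝ)) :=
        Submodule.finrank_add_le_finrank_add_finrank _ _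
    _ ≤ Module.finrank ℝ U + 3 := by omega

end Pool.Agent.Xu.X2.H79
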