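import Pool.Agent.Lib.MP_144d21_co.X2.IfaceS
import Pool.Agent.Lib.MP_144d21_co.X2.H79.R5

/-! # X2, module HINGE (R5): the hinge motion -/

set_option autoImplicit false

namespace Pool.Agent.Xu.X2.H79

open Finset Pool.Agent.Xu

theorem hinge : HingeS := fun _ _ _ _ hp _ _ _ hsep hcard _ hx hx2 _ hy hy1 =>
  r5 hp hsep hcard hx hx2 hy hy1

end Pool.Agent.Xu.X2.H79
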