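import Pool.Agent.Lib.MP_144d21_co.X2.IfaceS
import Pool.Agent.Lib.MP_144d21_co.X2.H79.R5

/-! # X2, module CLADD (R4): a vertex joined to a cluster -/

set_option autoImplicit false

namespace Pool.Agent.Xu.X2.H79

open Finset Pool.Agent.Xu

/-- the rows at `v` -/
theorem rs_le_star {V : Type} [Fintype V] [DecidableEq V] (p : V → Fin 3 → ℝ)
    (G : SimpleGraph V) (S : Finset V) (v : V) :
    rs p G S ≤ rs p G (S.erase v) ⊔ Submodule.span ℝ {z | ∃ w ∈ nb G S v, z = row p v w} := by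
  unfold rs
  rw [Submodule.span_le]
  rintro _ ⟨u, hu, w, hw, ha, rfl⟩
  by_cases h1 : u = v
  · subst h1
    exact Submodule.mem_sup_right (Submodule.subset_span ⟨w, mem_nb.2 ⟨hw, ha⟩, rfl⟩)
  · by_cases h2 : w = v
    · subst h2
      rw [row_comm]
      exact Submodule.mem_sup_right (Submodule.subset_span ⟨u, mem_nb.2 ⟨hu, ha.symm⟩, rfl⟩)
    · exact Submodule.mem_sup_left (Submodule.subset_span ⟨u, mem_erase.2 ⟨h1, hu⟩, w,
        mem_erase.2 ⟨h2, hw⟩, ha, rfl⟩)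

theorem star_le_rs {V : Type} [Fintype V] [DecidableEq V] (p : V → Fin 3 → ℝ)
    (G : SimpleGraph V) (S : Finset V) {v : V} (hv : v ∈ S) :
    rs p G (S.erase v) ⊔ Submodule.span ℝ {z | ∃ w ∈ nb G S v, z = row p v w} ≤ rs p G S := by
  refine sup_le (rs_mono (erase_subset v S) fun _ _ _ _ h => h) ?_
  rw [Submodule.span_le]
  rintro _ ⟨w, hw, rfl⟩
  exact Submodule.subset_span ⟨v, hv, w, (mem_nb.1 hw).1, (mem_nb.1 hw).2, rfl⟩

theorem cladd : CladdS := by
  intro V _ _ p hp G S v _ hK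
  calc rk p G S ≤ Module.finrank ℝ (rs p G (S.erase v) ⊔ Submodule.span ℝ
      {z | ∃ w ∈ nb G S v, z = row p v w} : Submodule ℝ (V → Fin 3 → ℝ)) :=
        Submodule.finrank_mono (rs_le_star p G S v)
    _ ≤ rk p G (S.erase v) + 3 := r4 hp _ _ hK.2 v

end Pool.Agent.Xu.X2.H79
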