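import Pool.Agent.Lib.MP_144d21_co.X2.H40.Gen

/-!
# X2, module R3: the 4-edge rule. A vertex `v` of degree 3 with an implied fourth pair `v x`:
the three neighbours and `x` form a cluster of `G[S - v]`.
-/

set_option autoImplicit false
set_option linter.unusedSectionVars false

namespace Pool.Agent.Xu.X2.H79

open Finset Pool.Agent.Xu Pool.Agent.Xu.X2.H40

variable {V : Type} [Fintype V] [DecidableEq V]

/-- vectors of the row space vanish outside `S` -/
theorem rs_zero {p : V → Fin 3 → ℝ} {G : SimpleGraph V} {S : Finset V} {z : V → Fin 3 → ℝ}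
    (hz : z ∈ rs p G S) {w : V} (hw : w ∉ S) : z w = 0 := by
  unfold rs at hz
  induction hz using Submodule.span_induction with
  | mem x hx =>
    obtain ⟨u, hu, v, hv, -, rfl⟩ := hx
    have h1 : w ≠ u := fun h => hw (h ▸ hu)
    have h2 : w ≠ v := fun h => hw (h ▸ hv)
    simp [row, Pi.single_eq_of_ne h1, Pi.single_eq_of_ne h2]
  | zero => rfl
  | add x y _ _ hx hy => rw [Pi.add_apply, hx, hy, add_zero]
  | smul t x _ hx => rw [Pi.smul_apply, hx, smul_zero]

/-- splitting off the three rows at `v` -/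
theorem rs_split3 {p : V → Fin 3 → ℝ} {G : SimpleGraph V} {S : Finset V} {v a b c : V}
    (hnb : nb G S v = {a, b, c}) {z : V → Fin 3 → ℝ} (hz : z ∈ rs p G S) :
    ∃ z0 ∈ rs p G (S.erase v), ∃ α β γ : ℝ,
      z = z0 + α • row p v a + β • row p v b + γ • row p v c := by
  unfold rs at hz
  induction hz using Submodule.span_induction with
  | mem x hx =>
    obtain ⟨u, hu, w, hw, ha, rfl⟩ := hx
    have key : ∀ w', w' ∈ S → G.Adj v w' →
        ∃ z0 ∈ rs p G (S.erase v), ∃ α β γ : ℝ,
          row p v w' = z0 + α • row p v a + β • row p v b + γ • row p v c := by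
      intro w' hw' ha'
      have : w' ∈ nb G S v := mem_nb.2 ⟨hw', ha'⟩
      rw [hnb, mem_insert, mem_insert, mem_singleton] at this
      rcases this with rfl | rfl | rfl
      · exact ⟨0, Submodule.zero_mem _, 1, 0, 0, by simp⟩
      · exact ⟨0, Submodule.zero_mem _, 0, 1, 0, by simp⟩
      · exact ⟨0, Submodule.zero_mem _, 0, 0, 1, by simp⟩
    by_cases h1 : u = v
    · subst h1; exact key w hw ha
    · by_cases h2 : w = v
      · subst h2; rw [row_comm]; exact key u hu ha.symm
      · refine ⟨row p u w, Submodule.subset_span ⟨u, mem_erase.2 ⟨h1, hu⟩, w,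
          mem_erase.2 ⟨h2, hw⟩, ha, rfl⟩, 0, 0, 0, by simp⟩
  | zero => exact ⟨0, Submodule.zero_mem _, 0, 0, 0, by simp⟩
  | add x y _ _ hx hy =>
    obtain ⟨z1, hz1, α, β, γ, h1⟩ := hx
    obtain ⟨z2, hz2, α', β', γ', h2⟩ := hy
    refine ⟨z1 + z2, Submodule.add_mem _ hz1 hz2, α + α', β + β', γ + γ', ?_⟩
    rw [h1, h2]
    module
  | smul t x _ hx =>
    obtain ⟨z1, hz1, α, β, γ, h1⟩ := hx
    refine ⟨t • z1, Submodule.smul_mem _ t hz1, t * α, t * β, t * γ, ?_⟩
    rw [h1]
    module

theorem row_at_left (p : V → Fin 3 → ℝ) {u w : V} (h : u ≠ w) : row p u w u = p u - p w := by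
  simp [row, Pi.single_eq_of_ne h]

theorem row_at_right (p : V → Fin 3 → ℝ) {u w : V} (h : u ≠ w) : row p u w w = p w - p u := by
  rw [row_comm, row_at_left p h.symm]

theorem row_at_other (p : V → Fin 3 → ℝ) {u w t : V} (h1 : t ≠ u) (h2 : t ≠ w) :
    row p u w t = 0 := by
  simp [row, Pi.single_eq_of_ne h1, Pi.single_eq_of_ne h2]

/-- the three vectors at `v` are independent -/
def Ind3 (y a b c : Fin 3 → ℝ) : Prop := ∀ α β γ : ℝ,
  α • (y - a) + β • (y - b) + γ • (y - c) = 0 → α = 0 ∧ β = 0 ∧ γ = 0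

theorem mem_erase3 {p : V → Fin 3 → ℝ} {G : SimpleGraph V} {S : Finset V} {v a b c : V}
    (hnb : nb G S v = {a, b, c}) (hI : Ind3 (p v) (p a) (p b) (p c)) {z : V → Fin 3 → ℝ}
    (hz : z ∈ rs p G S) (h0 : z v = 0) : z ∈ rs p G (S.erase v) := by
  obtain ⟨z0, hz0, α, β, γ, h1⟩ := rs_split3 hnb hz
  have ha : v ≠ a := by
    have : a ∈ nb G S v := by rw [hnb]; simp
    exact (mem_nb.1 this).2.ne
  have hb : v ≠ b := by
    have : b ∈ nb G S v := by rw [hnb]; simp
    exact (mem_nb.1 this).2.ne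
  have hc : v ≠ c := by
    have : c ∈ nb G S v := by rw [hnb]; simp
    exact (mem_nb.1 this).2.ne
  have h2 := congrFun h1 v
  simp only [Pi.add_apply, Pi.smul_apply] at h2
  rw [h0, rs_zero hz0 (notMem_erase v S), row_at_left p ha, row_at_left p hb,
    row_at_left p hc, zero_add] at h2
  obtain ⟨rfl, rfl, rfl⟩ := hI α β γ h2.symm
  rw [h1]
  simpa using hz0

theorem rank3 {p : V → Fin 3 → ℝ} {G : SimpleGraph V} {S : Finset V} {v a b c : V} (hv : v ∈ S)
    (hnb : nb G S v = {a, b, c}) (hI : Ind3 (p v) (p a) (p b) (p c)) :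
    rk p G S = rk p G (S.erase v) + 3 := by
  classical
  have hadj : ∀ w ∈ ({a, b, c} : Finset V), w ∈ S ∧ G.Adj v w := by
    intro w hw; rw [← hnb] at hw; exact mem_nb.1 hw
  have hmono : rs p G (S.erase v) ≤ rs p G S := rs_mono (erase_subset v S) fun _ _ _ _ h => h
  set M := rs p G S with hM
  set φ : M →ₗ[ℝ] (Fin 3 → ℝ) := (LinearMap.proj v).domRestrict M with hφ
  have hker : LinearMap.ker φ = (rs p G (S.erase v)).comap M.subtype := by
    ext z
    rw [LinearMap.mem_ker, Submodule.mem_comap]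
    constructor
    · intro h
      exact mem_erase3 hnb hI z.2 h
    · intro h
      exact rs_zero (p := p) (G := G) (S := S.erase v) (z := (z : V → Fin 3 → ℝ)) h
        (notMem_erase v S)
  have hrange : LinearMap.range φ = ⊤ := by
    have hli : LinearIndependent ℝ ![p v - p a, p v - p b, p v - p c] := by
      rw [Fintype.linearIndependent_iff]
      intro g hg
      rw [Fin.sum_univ_three] at hg
      obtain ⟨h1, h2, h3⟩ := hI (g 0) (g 1) (g 2) hg
      intro i
      fin_cases i
      · exact h1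
      · exact h2
      · exact h3
    have htop := hli.span_eq_top_of_card_eq_finrank (by simp)
    rw [eq_top_iff, ← htop, Submodule.span_le]
    rintro _ ⟨i, rfl⟩
    have hin : ∀ w ∈ ({a, b, c} : Finset V), p v - p w ∈ LinearMap.range φ := by
      intro w hw
      obtain ⟨hwS, hwa⟩ := hadj w hw
      refine ⟨⟨row p v w, Submodule.subset_span ⟨v, hv, w, hwS, hwa, rfl⟩⟩, ?_⟩
      show row p v w v = _
      rw [row_at_left p hwa.ne]
    fin_cases i
    · exact hin a (by simp)
    · exact hin b (by simp)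
    · exact hin c (by simp)
  have h1 := LinearMap.finrank_range_add_finrank_ker φ
  rw [hrange, hker, finrank_top, Module.finrank_fin_fun,
    (Submodule.comapSubtypeEquivOfLe hmono).finrank_eq] at h1
  unfold rk
  rw [← hM]
  omega

theorem rs_update (p : V → Fin 3 → ℝ) (G : SimpleGraph V) (S : Finset V) (v : V)
    (y : Fin 3 → ℝ) : rs (Function.update p v y) G (S.erase v) = rs p G (S.erase v) := by
  have : ∀ u ∈ S.erase v, ∀ w ∈ S.erase v,
      row (Function.update p v y) u w = row p u w := by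
    intro u hu w hw
    have h1 : u ≠ v := (mem_erase.1 hu).1
    have h2 : w ≠ v := (mem_erase.1 hw).1
    simp [row, Function.update_of_ne h1, Function.update_of_ne h2]
  unfold rs
  congr 1
  ext x
  constructor
  · rintro ⟨u, hu, w, hw, ha, rfl⟩
    exact ⟨u, hu, w, hw, ha, this u hu w hw⟩
  · rintro ⟨u, hu, w, hw, ha, rfl⟩
    exact ⟨u, hu, w, hw, ha, (this u hu w hw).symm⟩

/-- adding an implied edge does not change the row space -/
theorem rs_add_of_mem {p : V → Fin 3 → ℝ} {G : SimpleGraph V} {S : Finset V} {v x : V}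
    (h : row p v x ∈ rs p G S) : rs p (add G v x) S = rs p G S := by
  apply le_antisymm
  · unfold rs
    rw [Submodule.span_le]
    rintro _ ⟨u, hu, w, hw, ha, rfl⟩
    rcases ha with ha | ⟨-, ⟨rfl, rfl⟩ | ⟨rfl, rfl⟩⟩
    · exact Submodule.subset_span ⟨u, hu, w, hw, ha, rfl⟩
    · exact h
    · rw [row_comm]; exact h
  · exact rs_mono Subset.rfl fun _ _ _ _ h => Or.inl h

theorem row_mem_add {p : V → Fin 3 → ℝ} {G : SimpleGraph V} {S : Finset V} {v x : V}
    (hv : v ∈ S) (hx : x ∈ S) (hne : v ≠ x) : row p v x ∈ rs p (add G v x) S :=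
  Submodule.subset_span ⟨v, hv, x, hx, Or.inr ⟨hne, Or.inl ⟨rfl, rfl⟩⟩, rfl⟩

/-- a vector concentrated at `u` -/
noncomputable def sg (u : V) : (Fin 3 → ℝ) →ₗ[ℝ] (V → Fin 3 → ℝ) :=
  LinearMap.single ℝ (fun _ : V => Fin 3 → ℝ) u

theorem row_sg (p : V → Fin 3 → ℝ) (u w : V) :
    row p u w = sg u (p u - p w) + sg w (p w - p u) := rfl

/-- the general position of `v` may be changed -/
theorem r3core {p : V → Fin 3 → ℝ} (hp : Gen p) {G : SimpleGraph V} {S : Finset V}
    {v a b c x : V} (hv : v ∈ S) (hnb : nb G S v = {a, b, c}) (hx : x ∈ S) (hxv : v ≠ x)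
    (hIp : Ind3 (p v) (p a) (p b) (p c)) (himp : row p v x ∈ rs p G S) (y : Fin 3 → ℝ)
    (hIy : Ind3 y (p a) (p b) (p c)) (α β γ : ℝ)
    (hy : y - p x = α • (y - p a) + β • (y - p b) + γ • (y - p c)) :
    (sg x (p x - y) - α • sg a (p a - y) - β • sg b (p b - y) -
      γ • sg c (p c - y) : V → Fin 3 → ℝ) ∈ rs p G (S.erase v) := by
  set q := Function.update p v y with hq
  have ha : v ≠ a := by
    have : a ∈ nb G S v := by rw [hnb]; simp
    exact (mem_nb.1 this).2.ne
  have hb : v ≠ b := by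
    have : b ∈ nb G S v := by rw [hnb]; simp
    exact (mem_nb.1 this).2.ne
  have hc : v ≠ c := by
    have : c ∈ nb G S v := by rw [hnb]; simp
    exact (mem_nb.1 this).2.ne
  have qv : q v = y := Function.update_self v y p
  have qo : ∀ w, v ≠ w → q w = p w := fun w h => Function.update_of_ne h.symm y p
  have hIq : Ind3 (q v) (q a) (q b) (q c) := by rw [qv, qo a ha, qo b hb, qo c hc]; exact hIy
  have h1 : rk q G S = rk p G S := by
    rw [rank3 hv hnb hIq, rank3 hv hnb hIp]
    unfold rk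
    rw [hq, rs_update]
  have h2 : rk q (add G v x) S ≤ rk q G S := by
    rw [h1]
    refine (hp.2 q (add G v x) S).trans ?_
    unfold rk
    rw [rs_add_of_mem himp]
  have h3 : rs q G S = rs q (add G v x) S :=
    Submodule.eq_of_le_of_finrank_le (rs_mono Subset.rfl fun _ _ _ _ h => Or.inl h) h2
  have h4 : row q v x ∈ rs q G S := by rw [h3]; exact row_mem_add hv hx hxv
  have hrow : ∀ w ∈ ({a, b, c} : Finset V), row q v w ∈ rs q G S := by
    intro w hw
    rw [← hnb] at hw
    exact Submodule.subset_span ⟨v, hv, w, (mem_nb.1 hw).1, (mem_nb.1 hw).2, rfl⟩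
  have h5 : row q v x - α • row q v a - β • row q v b - γ • row q v c ∈ rs q G S :=
    Submodule.sub_mem _ (Submodule.sub_mem _ (Submodule.sub_mem _ h4
      (Submodule.smul_mem _ _ (hrow a (by simp)))) (Submodule.smul_mem _ _ (hrow b (by simp))))
      (Submodule.smul_mem _ _ (hrow c (by simp)))
  have h6 : (row q v x - α • row q v a - β • row q v b - γ • row q v c) v = 0 := by
    simp only [Pi.sub_apply, Pi.smul_apply]
    rw [row_at_left q hxv, row_at_left q ha, row_at_left q hb, row_at_left q hc, qv, qo x hxv,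
      qo a ha, qo b hb, qo c hc, hy]
    module
  have h7 := mem_erase3 hnb hIq h5 h6
  rw [hq, rs_update, ← hq] at h7
  convert h7 using 1
  have h8 : (row q v x - α • row q v a - β • row q v b - γ • row q v c) =
      sg v ((y - p x) - α • (y - p a) - β • (y - p b) - γ • (y - p c)) +
      (sg x (p x - y) - α • sg a (p a - y) - β • sg b (p b - y) -
        γ • sg c (p c - y)) := by
    simp only [row_sg, qv, qo x hxv, qo a ha, qo b hb, qo c hc, map_sub, map_smul]
    module
  rw [h8, hy]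
  have : (α • (y - p a) + β • (y - p b) + γ • (y - p c)) - α • (y - p a) - β • (y - p b) -
      γ • (y - p c) = 0 := by module
  rw [this, map_zero, zero_add]

/-- R3, one neighbour and one pair -/
theorem r3aux {p : V → Fin 3 → ℝ} (hp : Gen p) {G : SimpleGraph V} {S : Finset V}
    {v a b c x : V} (hv : v ∈ S) (hnb : nb G S v = {a, b, c}) (hab : a ≠ b) (hac : a ≠ c)
    (hbc : b ≠ c) (hx : x ∈ S) (hxv : v ≠ x) (hxn : x ∉ nb G S v)
    (himp : row p v x ∈ rs p G S) :
    row p x a ∈ rs p G (S.erase v) ∧ (row p x b ∈ rs p G (S.erase v) →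
      row p a b ∈ rs p G (S.erase v)) := by
  have hxa : x ≠ a := fun h => hxn (by rw [hnb, h]; simp)
  have hxb : x ≠ b := fun h => hxn (by rw [hnb, h]; simp)
  have hxc : x ≠ c := fun h => hxn (by rw [hnb, h]; simp)
  have ha : v ≠ a := by
    have : a ∈ nb G S v := by rw [hnb]; simp
    exact (mem_nb.1 this).2.ne
  have hb : v ≠ b := by
    have : b ∈ nb G S v := by rw [hnb]; simp
    exact (mem_nb.1 this).2.ne
  have hc : v ≠ c := by
    have : c ∈ nb G S v := by rw [hnb]; simp
    exact (mem_nb.1 this).2.ne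
  have hIp : Ind3 (p v) (p a) (p b) (p c) := by
    intro α β γ h
    have h1 := hp.1.four v a b c ha hb hc hab hac hbc (-α) (-β) (-γ) (by
      rw [← h]; module)
    exact ⟨neg_eq_zero.1 h1.1, neg_eq_zero.1 h1.2.1, neg_eq_zero.1 h1.2.2⟩
  have hxabc := hp.1.four x a b c hxa hxb hxc hab hac hbc
  have h1 : row p x a ∈ rs p G (S.erase v) := by
    have key := r3core hp hv hnb hx hxv hIp himp ((2 : ℝ) • p a - p x) (by
      intro α β γ h
      have h2 := hxabc (α - β - γ - (β + γ)) (β) (γ)
      have h3 := hxabc (α + 2 * β + 2 * γ) (-β) (-γ) (by rw [← h]; module)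
      obtain ⟨e1, e2, e3⟩ := h3
      have e2' : β = 0 := neg_eq_zero.1 e2
      have e3' : γ = 0 := neg_eq_zero.1 e3
      subst e2'; subst e3'
      exact ⟨by linarith, rfl, rfl⟩) 2 0 0 (by module)
    have h2 : row p x a = (1 / 2 : ℝ) • (sg x (p x - ((2 : ℝ) • p a - p x)) -
        (2 : ℝ) • sg a (p a - ((2 : ℝ) • p a - p x)) -
        (0 : ℝ) • sg b (p b - ((2 : ℝ) • p a - p x)) -
        (0 : ℝ) • sg c (p c - ((2 : ℝ) • p a - p x)) : V → Fin 3 → ℝ) := by
      simp only [row_sg, map_sub, map_smul]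
      module
    rw [h2]
    exact Submodule.smul_mem _ _ key
  refine ⟨h1, fun h2 => ?_⟩
  have key := r3core hp hv hnb hx hxv hIp himp (p a + p b - p x) (by
    intro α β γ h
    have h3 := hxabc (β + γ) (α + γ) (-γ) (by rw [← h]; module)
    obtain ⟨e1, e2, e3⟩ := h3
    have e3' : γ = 0 := neg_eq_zero.1 e3
    subst e3'
    exact ⟨by linarith, by linarith, rfl⟩) 1 1 0 (by module)
  have h3 : row p a b = row p x a + row p x b -
      (sg x (p x - (p a + p b - p x)) - (1 : ℝ) • sg a (p a - (p a + p b - p x)) -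
        (1 : ℝ) • sg b (p b - (p a + p b - p x)) -
        (0 : ℝ) • sg c (p c - (p a + p b - p x)) : V → Fin 3 → ℝ) := by
    simp only [row_sg, map_sub, map_add]
    module
  rw [h3]
  exact Submodule.sub_mem _ (Submodule.add_mem _ h1 h2) key

/-- R3 -/
theorem r3 {p : V → Fin 3 → ℝ} (hp : Gen p) {G : SimpleGraph V} {S : Finset V}
    {v x : V} (hv : v ∈ S) (hcard : (nb G S v).card = 3) (hx : x ∈ S) (hxv : v ≠ x)
    (hxn : x ∉ nb G S v) (himp : row p v x ∈ rs p G S) :
    (∀ a ∈ nb G S v, row p x a ∈ rs p G (S.erase v)) ∧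
    (∀ a ∈ nb G S v, ∀ b ∈ nb G S v, row p a b ∈ rs p G (S.erase v)) := by
  have h1 : ∀ a ∈ nb G S v, row p x a ∈ rs p G (S.erase v) := by
    intro a ha
    have h2 : ((nb G S v).erase a).card = 2 := by rw [card_erase_of_mem ha, hcard]
    obtain ⟨b, c, hbc, h3⟩ := card_eq_two.1 h2
    have hb : b ∈ (nb G S v).erase a := by rw [h3]; simp
    have hc : c ∈ (nb G S v).erase a := by rw [h3]; simp
    have h4 : nb G S v = {a, b, c} := by rw [← insert_erase ha, h3]
    exact (r3aux hp hv h4 (mem_erase.1 hb).1.symm (mem_erase.1 hc).1.symm hbc hx hxv hxn himp).1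
  refine ⟨h1, fun a ha b hb => ?_⟩
  by_cases hab : a = b
  · subst hab; rw [row_self]; exact Submodule.zero_mem _
  have hb' : b ∈ (nb G S v).erase a := mem_erase.2 ⟨fun h => hab h.symm, hb⟩
  have h2 : (((nb G S v).erase a).erase b).card = 1 := by
    rw [card_erase_of_mem hb', card_erase_of_mem ha, hcard]
  obtain ⟨c, h3⟩ := card_eq_one.1 h2
  have hc : c ∈ ((nb G S v).erase a).erase b := by rw [h3]; simp
  have h4 : nb G S v = {a, b, c} := by rw [← insert_erase ha, ← insert_erase hb', h3]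
  exact (r3aux hp hv h4 hab (mem_erase.1 (mem_erase.1 hc).2).1.symm (mem_erase.1 hc).1.symm hx hxv
    hxn himp).2 (h1 b hb)

end Pool.Agent.Xu.X2.H79
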