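import Pool.Agent.Lib.MP_144d21_co.X2.IfaceS
import Pool.Agent.Lib.MP_144d21_co.X2.H79.R3

/-! # X2, module FOUR (R3): the 4-edge rule -/

set_option autoImplicit false

namespace Pool.Agent.Xu.X2.H79

open Finset Pool.Agent.Xu

theorem four : FourS := by
  intro V _ _ p hp G S v x hv hx hxv hxn hcard himp
  obtain ⟨h1, h2⟩ := r3 hp hv hcard hx hxv.symm hxn himp
  constructor
  · intro w hw
    rcases mem_insert.1 hw with rfl | hw
    · exact mem_erase.2 ⟨hxv, hx⟩
    · exact mem_erase.2 ⟨(mem_nb.1 hw).2.ne', (mem_nb.1 hw).1⟩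
  · intro a ha b hb
    rcases mem_insert.1 ha with e1 | ha' <;> rcases mem_insert.1 hb with e2 | hb'
    · rw [e1, e2, row_self]; exact Submodule.zero_mem _
    · rw [e1]; exact h1 b hb'
    · rw [e2, row_comm]; exact h1 a ha'
    · exact h2 a ha' b hb'

end Pool.Agent.Xu.X2.H79
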