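import Pool.Agent.Lib.MP_144d21_co.X2.H79.Cladd

/-! # X2, module RST4: degree 4 -/

set_option autoImplicit false

namespace Pool.Agent.Xu.X2.H79

open Finset Pool.Agent.Xu

theorem rst4 (hC : CladdS) (hR : RkneS) (hN : NecntS) : Rst4S := by
  intro V _ _ p hp G S v hv hcard hrk
  by_contra hcon
  push Not at hcon
  have h1 := hC V p hp G S v hv ⟨fun w hw => mem_erase.2 ⟨(mem_nb.1 hw).2.ne', (mem_nb.1 hw).1⟩,
    hcon⟩
  have h2 := (hR V G G (S.erase v) (S.erase v) p).1
  have h3 := (hN V G S).2.1 v hv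
  omega

end Pool.Agent.Xu.X2.H79
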