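import Pool.Agent.Lib.MP_144d21_co.X2.H79.Cladd

/-! # X2, module RST5: degree 5 -/

set_option autoImplicit false

namespace Pool.Agent.Xu.X2.H79

open Finset Pool.Agent.Xu

theorem rst5 (h5 : St5S) (hR : RkneS) (hN : NecntS) : Rst5S := by
  intro V _ _ p hp G S v hv hcard hrk
  classical
  have h1 : rk p G (S.erase v) = ne G (S.erase v) :=
    (hR V G G S (S.erase v) p).2 (erase_subset v S) (fun _ _ _ _ h => h) hrk
  have h2 := (hN V G S).2.1 v hv
  -- list the neighbours
  let e : Fin 5 ≃ nb G S v := (Finset.equivFinOfCardEq hcard).symm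
  let w : Fin 5 → V := fun i => (e i : V)
  have hwinj : Function.Injective w := fun i j h => e.injective (Subtype.ext h)
  have hwmem : ∀ i, w i ∈ nb G S v := fun i => (e i).2
  have hwsurj : ∀ x ∈ nb G S v, ∃ i, w i = x := fun x hx => ⟨e.symm ⟨x, hx⟩, by
    show ((e (e.symm ⟨x, hx⟩) : nb G S v) : V) = x
    rw [Equiv.apply_symm_apply]⟩
  have hset : (Set.range fun i => row p v (w i)) = {z | ∃ x ∈ nb G S v, z = row p v x} := by
    ext z
    constructor
    · rintro ⟨i, rfl⟩; exact ⟨w i, hwmem i, rfl⟩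
    · rintro ⟨x, hx, rfl⟩
      obtain ⟨i, rfl⟩ := hwsurj x hx
      exact ⟨i, rfl⟩
  have hfr : Module.finrank ℝ (rs p G (S.erase v) ⊔ Submodule.span ℝ
      (Set.range fun i => row p v (w i)) : Submodule ℝ (V → Fin 3 → ℝ)) =
      Module.finrank ℝ (rs p G (S.erase v)) + 5 := by
    rw [hset, le_antisymm (star_le_rs p G S hv) (rs_le_star p G S v)]
    have h3 : rk p G S = rk p G (S.erase v) + 5 := by omega
    exact h3
  obtain ⟨i, hi⟩ := h5 V p hp (rs p G (S.erase v)) v w hwinj
    (fun i => (mem_nb.1 (hwmem i)).2.ne') hfr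
  refine ⟨fun j => w (Equiv.swap 0 i j), fun a b h => (Equiv.swap 0 i).injective (hwinj h), ?_, ?_⟩
  · ext x
    rw [mem_image]
    constructor
    · rintro ⟨j, -, rfl⟩; exact hwmem _
    · intro hx
      obtain ⟨j, rfl⟩ := hwsurj x hx
      exact ⟨Equiv.swap 0 i j, mem_univ _, by rw [Equiv.swap_apply_self]⟩
  · refine hi.trans (Submodule.finrank_mono (sup_le (rs_mono Subset.rfl fun _ _ _ _ h =>
      Or.inl h) ?_))
    rw [Submodule.span_le]
    rintro _ ⟨j, rfl⟩
    show row p (w i) (w j) ∈ _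
    by_cases hij : i = j
    · subst hij; rw [row_self]; exact Submodule.zero_mem _
    · have h4 : Equiv.swap 0 i 0 = i := Equiv.swap_apply_left 0 i
      have h6 : 0 < Equiv.swap 0 i j := by
        rw [Fin.pos_iff_ne_zero]
        intro h7
        have h8 : j = i := by
          rw [← Equiv.swap_apply_self 0 i j, h7, h4]
        exact hij h8.symm
      have hmem : ∀ k, w k ∈ S.erase v := fun k =>
        mem_erase.2 ⟨(mem_nb.1 (hwmem k)).2.ne', (mem_nb.1 (hwmem k)).1⟩
      refine Submodule.subset_span ⟨w i, hmem i, w j, hmem j, Or.inr ⟨hwinj.ne hij,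
        Equiv.swap 0 i j, h6, Or.inl ⟨?_, ?_⟩⟩, rfl⟩
      · show w i = w (Equiv.swap 0 i 0); rw [h4]
      · show w j = w (Equiv.swap 0 i (Equiv.swap 0 i j)); rw [Equiv.swap_apply_self]

end Pool.Agent.Xu.X2.H79
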